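import Pool.Agent.R280.LipFree

/-!
# MP_5c5e51_an, Q1 and Q2

If `Lip_0(M)` has the Daugavet property then so do `Lip_0(M, X)` and the projective tensor product
of `F(M)` and `X`, for every Banach space `X`.
-/

set_option autoImplicit false

universe u v w

namespace Pool.Agent.Results.MP_5c5e51_an.LipDaugavet

open Pool.Agent.R280.Lip

/-- The Daugavet property passes from `Lip_0(M)` to `Lip_0(M, X)` (Q1) and to the projective tensor
product of the Lipschitz-free space `F(M)` and `X` (Q2), for every metric space `M` with base point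
`o` and every normed space `X`. -/
theorem result (M : Type u) [MetricSpace M] (o : M) (hM : Daugavet (LipZ M o ℝ))
    (X : Type v) [NormedAddCommGroup X] [NormedSpace ℝ X] :
    Daugavet (LipZ M o X) ∧
      ∀ (Y : Type w) [NormedAddCommGroup Y] [NormedSpace ℝ Y]
        (τ : FreeZ M o →ₗ[ℝ] X →ₗ[ℝ] Y), IsProjTensor τ → Daugavet Y :=
  ⟨lip_daugavet hM, fun _ _ _ _ hτ => tensor_daugavet hM hτ⟩

end Pool.Agent.Results.MP_5c5e51_an.LipDaugavet
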